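import Pool.Agent.Helper78.GL.Spec

/-!
Part A_MIN of the swarm GL (MP_a31c1c_an): abstract minimisation.
-/

set_option autoImplicit false

namespace Pool.Agent.Helper10.GL

open Helper78.GL

theorem min_thm : S_MIN := by
  intro V _ _ D l C hsym hlin hpos hl hb
  have hadd : ∀ v w u, D (v + w) u = D v u + D w u := by
    intro v w u; simpa using hlin v w u 1 1
  have hsmul : ∀ (a : ℝ) v u, D (a • v) u = a * D v u := by
    intro a v u; simpa using hlin v 0 u a 0
  have hadd' : ∀ v w u, D u (v + w) = D u v + D u w := by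
    intro v w u; rw [hsym, hadd, hsym v, hsym w]
  have hsmul' : ∀ (a : ℝ) v u, D u (a • v) = a * D u v := by
    intro a v u; rw [hsym, hsmul, hsym v]
  have hladd : ∀ v w, l (v + w) = l v + l w := by
    intro v w; simpa using hl v w 1 1
  have hlsmul : ∀ (a : ℝ) v, l (a • v) = a * l v := by
    intro a v; simpa using hl v 0 a 0
  set J : V → ℝ := fun v => D v v / 2 - l v with hJ
  have hbelow : ∀ v, -(C ^ 2 / 2) ≤ J v := by
    intro v
    have h1 := hb v
    have h2 : √(D v v) ^ 2 = D v v := Real.sq_sqrt (hpos v)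
    have h3 := le_abs_self (l v)
    simp only [hJ]
    nlinarith [sq_nonneg (√(D v v) - C)]
  have hbdd : BddBelow (Set.range J) := ⟨-(C ^ 2 / 2), by rintro _ ⟨v, rfl⟩; exact hbelow v⟩
  have hex : ∀ n : ℕ, ∃ v, J v < (⨅ v, J v) + 1 / ((n : ℝ) + 1) := by
    intro n
    exact exists_lt_of_ciInf_lt (lt_add_of_pos_right _ (by positivity))
  choose v hv using hex
  have hlow : ∀ w, (⨅ v, J v) ≤ J w := fun w => ciInf_le hbdd w
  refine ⟨v, ?_, ?_⟩
  · intro ε hε
    obtain ⟨N, hN⟩ := exists_nat_gt (8 / ε)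
    refine ⟨N, fun n m hn hm => ?_⟩
    have hpar : D (v n - v m) (v n - v m) = 4 * (J (v n) + J (v m) -
        2 * J ((1 / 2 : ℝ) • (v n + v m))) := by
      have e1 : v n - v m = v n + (-1 : ℝ) • v m := by rw [neg_one_smul, sub_eq_add_neg]
      rw [e1]
      simp only [hJ, hadd, hadd', hsmul, hsmul', hladd, hlsmul]
      rw [hsym (v m) (v n)]
      ring
    have hbn : ∀ k, N ≤ k → 1 / ((k : ℝ) + 1) ≤ ε / 8 := by
      intro k hk
      have hkN : (N : ℝ) ≤ k := by exact_mod_cast hk
      rw [div_lt_iff₀ hε] at hN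
      rw [div_le_div_iff₀ (by positivity) (by norm_num)]
      nlinarith
    have h1 := hv n
    have h2 := hv m
    have h3 := hlow ((1 / 2 : ℝ) • (v n + v m))
    have h4 := hbn n hn
    have h5 := hbn m hm
    rw [hpar]
    linarith
  · intro ε hε
    obtain ⟨N, hN⟩ := exists_nat_gt (2 / ε ^ 2)
    refine ⟨N, fun n hn w => ?_⟩
    have hq : ∀ t : ℝ, 0 ≤ (D w w / 2) * (t * t) + (D (v n) w - l w) * t + 1 / ((n : ℝ) + 1) := by
      intro t
      have h1 := hv n
      have h2 := hlow (v n + t • w)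
      have h3 : J (v n + t • w) = J (v n) + (D w w / 2) * (t * t) + (D (v n) w - l w) * t := by
        simp only [hJ, hadd, hadd', hsmul, hsmul', hladd, hlsmul]
        rw [hsym w (v n)]
        ring
      linarith
    have hdis := discrim_le_zero hq
    rw [discrim] at hdis
    have hnN : (N : ℝ) ≤ n := by exact_mod_cast hn
    have hb2 : 2 * (1 / ((n : ℝ) + 1)) ≤ ε ^ 2 := by
      rw [div_lt_iff₀ (by positivity)] at hN
      rw [mul_one_div, div_le_iff₀ (by positivity)]
      nlinarith [sq_nonneg ε]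
    have hw := hpos w
    have h2 : (D (v n) w - l w) ^ 2 ≤ (ε * √(D w w)) ^ 2 := by
      rw [mul_pow, Real.sq_sqrt hw]
      nlinarith
    exact abs_le_of_sq_le_sq h2 (by positivity)

end Pool.Agent.Helper10.GL
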