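import Pool.Agent.Helper78.GL.Spec

/-!
Part A_SEQ of the swarm GL (MP_a31c1c_an): the minimising sequence.
-/

set_option autoImplicit false

namespace Pool.Agent.Helper10.GL

open Helper78.GL Pool.GL MeasureTheory Metric

/-- the integrand of an average of a function which is continuous near the support -/
theorem integrable_avg (P : Profile) (f : ℂ → ℝ) (r R : ℝ) (hr : 0 < r) (hrR : r < R)
    (hf : ContinuousOn f (ball 0 R)) :
    Integrable (fun w : ℂ => P.χ w * f (0 + (r : ℂ) * w)) := by
  have hcont : Continuous (fun w : ℂ => P.χ w * f (0 + (r : ℂ) * w)) := by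
    rw [continuous_iff_continuousAt]
    intro w
    by_cases hw : ‖w‖ < R / r
    · have hopen : IsOpen {w : ℂ | ‖w‖ < R / r} := isOpen_lt continuous_norm continuous_const
      have h1 : ContinuousOn (fun w : ℂ => P.χ w * f (0 + (r : ℂ) * w)) {w : ℂ | ‖w‖ < R / r} := by
        refine P.χ_smooth.continuous.continuousOn.mul (hf.comp (by fun_prop) ?_)
        intro u hu
        rw [mem_ball_zero_iff]
        show ‖0 + (r : ℂ) * u‖ < R
        rw [zero_add, norm_mul, Complex.norm_real, Real.norm_of_nonneg hr.le]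
        have hu' : ‖u‖ < R / r := hu
        rw [lt_div_iff₀ hr] at hu'
        linarith
      exact h1.continuousAt (hopen.mem_nhds hw)
    · push Not at hw
      have h1 : 1 < R / r := by rw [lt_div_iff₀ hr]; linarith
      have hopen : IsOpen {w : ℂ | 1 < ‖w‖} := isOpen_lt continuous_const continuous_norm
      have heq : (fun w : ℂ => P.χ w * f (0 + (r : ℂ) * w)) =ᶠ[nhds w] fun _ => 0 := by
        filter_upwards [hopen.mem_nhds (show 1 < ‖w‖ by linarith)] with u hu
        rw [P.χ_supp u (le_of_lt hu), zero_mul]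
      exact continuousAt_const.congr heq.symm
  refine hcont.integrable_of_hasCompactSupport ?_
  refine HasCompactSupport.intro (isCompact_closedBall (0 : ℂ) 1) ?_
  intro w hw
  rw [mem_closedBall_zero_iff, not_le] at hw
  rw [P.χ_supp w hw.le, zero_mul]

theorem base_lin (P : Profile) {M : Type} (T : TS M) (p₀ : M) (r₀ : ℝ) (h0 : 0 < r₀)
    (h1 : r₀ < T.rho p₀ / 4) (v w : M → ℝ) (hv : T.Test v) (hw : T.Test w) (a b : ℝ) :
    base P T p₀ r₀ (fun x => a * v x + b * w x) = a * base P T p₀ r₀ v + b * base P T p₀ r₀ w := by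
  have hρ := T.rho_pos p₀
  have i1 := integrable_avg P (fun z => v (T.Phi p₀ z)) r₀ (T.rho p₀) h0 (by linarith)
    (hv.1 p₀).continuousOn
  have i2 := integrable_avg P (fun z => w (T.Phi p₀ z)) r₀ (T.rho p₀) h0 (by linarith)
    (hw.1 p₀).continuousOn
  unfold base avg
  rw [← integral_const_mul, ← integral_const_mul, ← integral_add (i1.const_mul a) (i2.const_mul b)]
  congr 1
  ext u
  ring

theorem seq_thm (hMIN : S_MIN) (hTST : S_TST) : S_SEQ := by
  intro P M T _ μ p₀ r₀ hA hB
  obtain ⟨t0, tl, tsym, tpos, tlin, ten⟩ := hTST M T μ hA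
  obtain ⟨h0, h1, C, hC⟩ := hB
  let V : Submodule ℝ (M → ℝ) :=
    { carrier := {v | T.Test v}
      add_mem' := by
        intro v w hv hw
        have := tl v w hv hw 1 1
        simp only [one_mul] at this
        exact this
      zero_mem' := t0
      smul_mem' := by
        intro c v hv
        have := tl v 0 hv t0 c 0
        simp only [Pi.zero_apply, mul_zero, add_zero] at this
        exact this }
  have hmem : ∀ v : V, T.Test (v : M → ℝ) := fun v => v.2
  obtain ⟨v, hv1, hv2⟩ := hMIN V (fun v w => T.D μ (v : M → ℝ) (w : M → ℝ))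
    (fun v => base P T p₀ r₀ (v : M → ℝ)) C (fun v w => tsym _ _)
    (fun v w u a b => tlin _ _ _ (hmem v) (hmem w) (hmem u) a b)
    (fun v => tpos _ (hmem v))
    (fun v w a b => base_lin P T p₀ r₀ h0 h1 _ _ (hmem v) (hmem w) a b)
    (fun v => hC _ (hmem v))
  refine ⟨fun n => (v n : M → ℝ), fun n => hmem _, ?_, ?_⟩
  · exact hv1
  · intro ε hε
    obtain ⟨N, hN⟩ := hv2 ε hε
    exact ⟨N, fun n hn w hw => hN n hn ⟨w, hw⟩⟩

end Pool.Agent.Helper10.GL
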